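import Mathlib
import Pool.Agent.Lib.MP_2e830d_lc.Mem
import Pool.Agent.Lib.CookLevin.Main

/-!
# HAMILTONIAN CYCLE is NP-complete on `F`-subgraph-free graphs for every `F` with two vertices of
degree at least three at distance at least six

Graphs are given by their adjacency matrices, written as words (`matGraph`, `encM`; the encoding is
injective). The Hamiltonian graphs form a language in NP. For every `l` every language in NP is
reduced in polynomial time by a Turing machine to the Hamiltonicity of graphs that are
`F`-subgraph-free for all graphs `F` with two vertices of degree at least three in the same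
component, whose distance is between `6` and `l`.
-/

namespace Pool.Agent.Results.MP_2e830d_lc.FarCubicPairs

open Pool.Agent.Lib.MP_2e830d_lc Pool.Agent.Lib.CookLevin Turing

/-- HAMILTONIAN CYCLE is in NP, and it is NP-hard for graphs that are `F`-subgraph-free for all `F`
with two vertices of degree at least three whose distance is between `6` and `l`. -/
theorem result :
    Function.Injective encM ∧
    InNP {w : List (Option Bool) | ∃ M, encM M = w ∧ (matGraph M).IsHamiltonian} ∧
    ∀ (l : ℕ) (Γ : Type) [Fintype Γ] (L : Set (List Γ)), InNP L →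
      ∃ f : List Γ → List (List Bool),
        Nonempty (TM2ComputableInPolyTime (id : List Γ → List Γ) encM f) ∧
        ∀ x, 3 ≤ (f x).length ∧
          (∀ (W : Type) (F : SimpleGraph W) (a b : W), 3 ≤ (F.neighborSet a).ncard →
            3 ≤ (F.neighborSet b).ncard → F.Reachable a b → 6 ≤ F.dist a b → F.dist a b ≤ l →
              F.Free (matGraph (f x))) ∧
          (x ∈ L ↔ (matGraph (f x)).IsHamiltonian) := by
  refine ⟨encM_injective, inNP, fun l Γ _ L hL => ?_⟩
  obtain ⟨g, ⟨h1⟩, h2⟩ := cook_levin hL
  obtain ⟨h3⟩ := red_computable (l + 1)
  refine ⟨red (l + 1) ∘ g, polyTime_comp h1 h3, fun x => ⟨?_, ?_, ?_⟩⟩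
  · exact three_le_length (l + 1) (g x)
  · intro W F a b ha hb hr h6 hl
    exact red_free a b ha hb hr h6 (hl.trans (Nat.le_succ l))
  · rw [(h2 x).2]
    exact (red_iff (h2 x).1 (Nat.succ_le_succ (Nat.zero_le l))).symm

end Pool.Agent.Results.MP_2e830d_lc.FarCubicPairs
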